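import Pool.Agent.J6H36.PF.Stm

/-!
# PF-SEQ (helper83, for helper36): a countable domain embeds modulo finite sets into a product
-/

set_option autoImplicit false

universe u

namespace Pool.Agent.J6H83.PF

open Pool.Agent.J6H36.PF

theorem t_SEQ : S_SEQ.{u} := by
  classical
  intro S _ _ _ ι F _ H
  have : Nonempty {s : S // s ≠ 0} := ⟨⟨1, one_ne_zero⟩⟩
  obtain ⟨e, he⟩ := exists_surjective_nat {s : S // s ≠ 0}
  let P : ℕ → S := fun k => ∏ i ∈ Finset.range (k + 1), (e i : S)
  have hP : ∀ k, P k ≠ 0 := fun k => Finset.prod_ne_zero_iff.2 fun i _ => (e i).2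
  let α : Type u := ULift.{u} ℕ × ι
  obtain ⟨f, hf1, hf2⟩ := exists_seq_of_forall_finset_exists
    (fun x : α => ∃ φ : S →+* F x.2, φ (P x.1.down) ≠ 0)
    (fun x y : α => x.2 ≠ y.2 ∧ x.1.down < y.1.down) (by
      intro s _
      obtain ⟨j, hj, φ, hφ⟩ := H (P (s.sup (fun x => x.1.down) + 1)) (hP _) (s.image Prod.snd)
      refine ⟨(⟨s.sup (fun x => x.1.down) + 1⟩, j), ⟨φ, hφ⟩, fun x hx => ⟨?_, ?_⟩⟩
      · intro h
        exact hj (Finset.mem_image.2 ⟨x, hx, h⟩)
      · exact Nat.lt_succ_of_le (Finset.le_sup (f := fun x : α => x.1.down) hx))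
  have hinj : Function.Injective fun n => (f n).2 := by
    intro m n h
    rcases lt_trichotomy m n with h1 | h1 | h1
    · exact absurd h (hf2 m n h1).1
    · exact h1
    · exact absurd h.symm (hf2 n m h1).1
  have hmono : StrictMono fun n => (f n).1.down := fun m n h => (hf2 m n h).2
  have hge : ∀ n, n ≤ (f n).1.down := fun n => hmono.le_apply
  have hch : ∀ j : Set.range fun n => (f n).2, ∃ (φ : S →+* F j) (n : ℕ), (f n).2 = (j : ι) ∧
      φ (P (f n).1.down) ≠ 0 := by
    rintro ⟨_, n, rfl⟩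
    obtain ⟨φ, hφ⟩ := hf1 n
    exact ⟨φ, n, rfl, hφ⟩
  choose φ n h1 h2 using hch
  refine ⟨Set.range fun n => (f n).2, φ, Set.infinite_range_of_injective hinj, fun s hs => ?_⟩
  obtain ⟨i, hi⟩ := he ⟨s, hs⟩
  refine Set.Finite.subset (((Set.finite_lt_nat i).image fun n => (f n).2).preimage
    Subtype.val_injective.injOn) ?_
  intro j hj
  refine ⟨n j, ?_, h1 j⟩
  by_contra hlt
  apply h2 j
  have hmem : i ∈ Finset.range ((f (n j)).1.down + 1) := by
    rw [Finset.mem_range]
    have := hge (n j)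
    have h3 : i ≤ n j := not_lt.1 hlt
    omega
  have h4 : φ j (e i : S) = 0 := by
    rw [hi]
    exact hj
  rw [map_prod]
  exact Finset.prod_eq_zero hmem h4

end Pool.Agent.J6H83.PF
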